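import Pool.Agent.H97.S6.Inp
import Pool.Agent.H62.S6.Adm

/-!
# The frames of a family from natural labels

Natural labels at the windows of the grid, with the exact direction of the fans, give the frames of
the windows and the exact frame: the exact plank is the plank of the top window.
-/

set_option autoImplicit false

namespace Pool.S6N

open Finset Real
open Pool.Agent.H49.Ent Pool.Agent.H32.Dense Pool.STK Pool.KA Pool.KSAT Pool.K2S Pool.PB Pool.KS6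
  Pool.S6C Pool.Sel51 Pool.S6F

section one

variable {J : ℕ} {F : Fam 3 J} {A : F.Ω → Prop} {i₀ iu iN : Fin 3} {N Pu : ℕ}
  {w V T H : ℕ → ℕ} {e n : (Fin 3 → ℤ) × (ℕ × F.ζ) → Fin 3 → ℝ} {z : ℕ → F.Ω → Pln}

theorem inc_weak {w V V' R T : ℕ} {y : Pln} {t : ℝ} {x d : Fin 3 → ℝ} (hV : V ≤ V')
    (hR : w + R ≤ T) (h : Inc i₀ iu iN w V' T 2 y t x d) :
    Inc i₀ iu iN w V (w + R) 2 y t x d := by
  have h2 := inc_lam (by norm_num) hV h
  have hp : (2 : ℝ) ^ (w + R) ≤ 2 ^ T := pow_le_pow_right₀ (by norm_num) hR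
  exact ⟨h2.e_le, h2.c_le, h2.s_le, h2.pe, h2.pu,
    h2.pn.trans (div_le_div_of_nonneg_left (by norm_num) (by positivity) hp), h2.ve, h2.vu,
    h2.vn.trans (div_le_div_of_nonneg_left (by positivity) (by positivity) hp)⟩

/-- The normals of all labels agree. -/
theorem s_chain (h : NLc F A i₀ iu iN N Pu w V T H e n z) {j K m : ℕ} (hj : j ≤ N)
    (hK : ∀ a < j, K + m ≤ H a) (hN : (N : ℝ) ≤ 2 ^ m) {ω : F.Ω} (hω : A ω) :
    |(z 0 ω).s - (z j ω).s| ≤ 1 / 2 ^ K := by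
  have key : ∀ i ≤ j, |(z 0 ω).s - (z i ω).s| ≤ i * (1 / 2 ^ (K + m)) := by
    intro i
    induction i with
    | zero => intro _; simp
    | succ i ih =>
      intro hi
      have h1 := ih (by omega)
      have h2 := h.zd i (by omega) ω hω
      have h3 := inv_pow_mono (hK i (by omega))
      have e1 : (z 0 ω).s - (z (i + 1) ω).s =
          ((z 0 ω).s - (z i ω).s) - ((z (i + 1) ω).s - (z i ω).s) := by ring
      rw [e1]
      refine (abs_sub _ _).trans ?_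
      push_cast
      linarith only [h1, h2, h3]
  have h1 := key j le_rfl
  have h2 : (j : ℝ) ≤ 2 ^ m := le_trans (by exact_mod_cast hj) hN
  refine h1.trans ?_
  calc (j : ℝ) * (1 / 2 ^ (K + m)) ≤ 2 ^ m * (1 / 2 ^ (K + m)) :=
        mul_le_mul_of_nonneg_right h2 (by positivity)
    _ = 1 / 2 ^ K := by
        rw [pow_add]
        field_simp

/-- **The frames from natural labels.** -/
theorem fms_nl (h : NLc F A i₀ iu iN N Pu w V T H e n z) {PN : ℕ} (hS : SnG F A i₀ iu iN PN e (z 0))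
    {v R : ℕ → ℕ} {m : ℕ} (hN : (N : ℝ) ≤ 2 ^ m) (hv : ∀ j ≤ N, v j ≤ V j) (hv0 : ∀ j ≤ N, v j ≤ v 0)
    (hR0 : ∀ j ≤ N, R j ≤ R 0) (hT : ∀ j ≤ N, w j + R j ≤ T j)
    (hH : ∀ j ≤ N, ∀ a < j, R j - v j + m ≤ H a) :
    ∃ (τ : Fin 3 → Fin 3) (y : F.Ω → Pln) (al nu k b : F.Ω → ℝ),
      Fms F A i₀ N w v R Pu PN τ y z al nu k b := by
  obtain ⟨b, hb⟩ := hS
  obtain ⟨t1, t2, t3⟩ := three h.hi
  obtain ⟨φ, hφ⟩ := h.zp 0 (Nat.zero_le _)
  obtain ⟨ψ, hψ⟩ := h.zs 0 (Nat.zero_le _)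
  have hz : ∀ ω ω', A ω → A ω' → Fam.pt F ω = Fam.pt F ω' → z 0 ω = z 0 ω' := by
    intro ω ω' hω hω' hp
    rw [hφ ω hω, hφ ω' hω']
    exact congrArg φ hp
  have kle : ∀ j ≤ N, ∀ ω, A ω →
      |(z j ω).c + (z j ω).s * e (Fam.pt F ω) iu + e (Fam.pt F ω) iN| ≤ 1 / 2 ^ R j := by
    intro j hj ω hω
    refine (h.zc j hj ω hω).trans ?_
    rw [div_le_div_iff₀ (by positivity) (by positivity), ← pow_add, one_mul]
    exact pow_le_pow_right₀ (by norm_num) (hT j hj)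
  have ele : ∀ j ≤ N, ∀ ω, A ω → |(z j ω).e - e (Fam.pt F ω) iu| ≤ 4 / 2 ^ v j := by
    intro j hj ω hω
    refine (h.ze j hj ω hω).trans ?_
    exact div_le_div_of_nonneg_left (by norm_num) (by positivity)
      (pow_le_pow_right₀ (by norm_num) (hv j hj))
  have N0 : (0 : ℕ) ≤ N := Nat.zero_le _
  refine ⟨![i₀, iu, iN], z 0, fun ω => e (Fam.pt F ω) iu, fun ω => n (Fam.pt F ω) iu,
    fun ω => (z 0 ω).c + (z 0 ω).s * e (Fam.pt F ω) iu + e (Fam.pt F ω) iN,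
    fun ω => b (Fam.pt F ω), ⟨?_, rfl, ⟨?_, ?_, ⟨φ, hφ⟩, ⟨ψ, fun ω _ => hψ ω⟩,
      fun j hj => h.zs j hj, ?_, ?_⟩, ⟨?_, ?_, ?_, ?_, ?_⟩⟩⟩
  · intro i j hij
    fin_cases i <;> fin_cases j <;> first | rfl | (exfalso; revert hij; simp; tauto)
  · exact h.hi
  · intro ω hω
    exact inc_weak (hv 0 N0) (hT 0 N0) (h.inc 0 N0 ω hω)
  · intro j hj ω hω
    have i1 := h.inc j hj ω hω
    exact ⟨i1.e_le.trans (by norm_num), i1.c_le.trans (by norm_num), i1.s_le.trans (by norm_num)⟩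
  · intro j hj ω hω
    have a0 := ele 0 N0 ω hω
    have aj := ele j hj ω hω
    have pv : (0 : ℝ) < 2 ^ v j := by positivity
    have a0' : (4 : ℝ) / 2 ^ v 0 ≤ 4 / 2 ^ v j :=
      div_le_div_of_nonneg_left (by norm_num) pv (pow_le_pow_right₀ (by norm_num) (hv0 j hj))
    have sj := s_chain h hj (hH j hj) hN hω
    have k0 := kle 0 N0 ω hω
    have kj := kle j hj ω hω
    have k0' := inv_pow_mono (hR0 j hj)
    refine ⟨?_, ?_, ?_⟩
    · have e1 : (z 0 ω).e - (z j ω).e = ((z 0 ω).e - e (Fam.pt F ω) iu) -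
          ((z j ω).e - e (Fam.pt F ω) iu) := by ring
      have e2 : (8 : ℝ) / 2 ^ v j = 4 / 2 ^ v j + 4 / 2 ^ v j := by ring
      rw [e1, e2]
      refine (abs_sub _ _).trans ?_
      linarith only [a0, aj, a0']
    · exact sj.trans (div_le_div_of_nonneg_right (by norm_num) (by positivity))
    · have m1 : |((z 0 ω).s - (z j ω).s) * ((z j ω).e - e (Fam.pt F ω) iu)| ≤ 4 / 2 ^ R j := by
        rw [abs_mul]
        calc _ ≤ 1 / 2 ^ (R j - v j) * (4 / 2 ^ v j) :=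
              mul_le_mul sj aj (abs_nonneg _) (by positivity)
          _ = 4 / 2 ^ ((R j - v j) + v j) := by
              rw [pow_add]
              field_simp
          _ ≤ 4 / 2 ^ R j := div_le_div_of_nonneg_left (by norm_num) (by positivity)
              (pow_le_pow_right₀ (by norm_num) (by omega))
      have e1 : Ae (z 0 ω).c (z 0 ω).s (z j ω).c (z j ω).s (z j ω).e =
          ((z 0 ω).c + (z 0 ω).s * e (Fam.pt F ω) iu + e (Fam.pt F ω) iN) -
          ((z j ω).c + (z j ω).s * e (Fam.pt F ω) iu + e (Fam.pt F ω) iN) +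
          ((z 0 ω).s - (z j ω).s) * ((z j ω).e - e (Fam.pt F ω) iu) := by
        unfold Ae
        ring
      have e2 : (8 : ℝ) / 2 ^ R j = 1 / 2 ^ R j + 1 / 2 ^ R j + 4 / 2 ^ R j + 2 / 2 ^ R j := by ring
      have e3 : (0 : ℝ) < 2 / 2 ^ R j := by positivity
      rw [e1, e2]
      rw [abs_le] at k0 kj m1 ⊢
      constructor <;> linarith only [k0, kj, k0', m1, e3, k0.1, k0.2, kj.1, kj.2, m1.1, m1.2]
  · intro ω ω' hω hω' hp
    rw [hp, hz ω ω' hω hω' hp]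
    exact ⟨rfl, rfl, rfl, rfl⟩
  · intro ω hω
    exact h.ln ω hω iu
  · intro ω hω
    have h1 := hb ω hω
    have e1 : fn i₀ iu iN (z 0 ω).c (z 0 ω).s (F.d ω) - b (Fam.pt F ω) -
        ((z 0 ω).c + (z 0 ω).s * e (Fam.pt F ω) iu + e (Fam.pt F ω) iN) * F.d ω i₀ =
        (F.d ω iN - e (Fam.pt F ω) iN * F.d ω i₀) +
          (z 0 ω).s * (F.d ω iu - e (Fam.pt F ω) iu * F.d ω i₀) - b (Fam.pt F ω) := by
      unfold fn
      ring
    show |fn i₀ iu iN (z 0 ω).c (z 0 ω).s (F.d ω) - b (Fam.pt F ω) -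
        ((z 0 ω).c + (z 0 ω).s * e (Fam.pt F ω) iu + e (Fam.pt F ω) iN) * F.d ω i₀| ≤ _
    rw [e1]
    exact h1
  · intro ω hω
    show |e (Fam.pt F ω) iu - (z 0 ω).e| ≤ 8 / 2 ^ v 0
    rw [abs_sub_comm]
    exact (ele 0 N0 ω hω).trans (div_le_div_of_nonneg_right (by norm_num) (by positivity))
  · intro ω hω
    exact (kle 0 N0 ω hω).trans (div_le_div_of_nonneg_right (by norm_num) (by positivity))

end one

/-- The windows of the grid decrease. -/
theorem Zon.antiF {σ : ℝ → Row} {N : ℕ} {u : ℕ → ℚ} {w₀ v₀ v g ρ e : ℝ}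
    (h : Zon σ N u w₀ v₀ v g ρ e) : ∀ j ≤ N, ∀ i ≤ j, u j ≤ u i := by
  intro j
  induction j with
  | zero =>
    intro _ i hi
    rw [Nat.le_zero.1 hi]
  | succ j ih =>
    intro hj i hi
    rcases Nat.lt_or_ge j i with h1 | h1
    · rw [show i = j + 1 by omega]
    · exact (h.dec j (by omega)).le.trans (ih (by omega) i h1)

/-- The value of the directions at the window is at most their value at larger windows. -/
theorem slp_le {f : ℚ → ℝ} {x v s : ℝ} (h : Slp f x v s) {w₁ : ℚ} (hx : x < w₁) (hx0 : 0 < x)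
    (hf : ∀ q : ℚ, 0 ≤ q → q ≤ w₁ → f q ≤ f w₁) : v ≤ f w₁ := by
  refine le_of_forall_pos_le_add fun ε hε => ?_
  obtain ⟨δ, hδ, h1⟩ := h 1 one_pos
  have hη : 0 < min (min δ (w₁ - x)) (ε / (1 + |s|)) :=
    lt_min (lt_min hδ (by linarith only [hx])) (by positivity)
  obtain ⟨q, hq1, hq2⟩ := exists_rat_btwn (show x < x + min (min δ (w₁ - x)) (ε / (1 + |s|)) by
    linarith only [hη])
  have k1 : (q : ℝ) - x < δ := by
    have := (min_le_left (min δ ((w₁ : ℝ) - x)) (ε / (1 + |s|))).trans (min_le_left _ _)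
    linarith only [hq2, this]
  have k2 : (q : ℝ) < w₁ := by
    have := (min_le_left (min δ ((w₁ : ℝ) - x)) (ε / (1 + |s|))).trans (min_le_right _ _)
    linarith only [hq2, this]
  have k3 : (q : ℝ) - x < ε / (1 + |s|) := by
    have := min_le_right (min δ ((w₁ : ℝ) - x)) (ε / (1 + |s|))
    linarith only [hq2, this]
  have k4 : |(q : ℝ) - x| = q - x := abs_of_nonneg (by linarith only [hq1])
  have h2 := h1 q (by rw [k4]; exact k1)
  rw [k4] at h2
  have h3 := hf q (by have : (0 : ℝ) ≤ q := by linarith only [hx0, hq1]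
                      exact_mod_cast this) (by exact_mod_cast k2.le)
  have h4 : (1 + |s|) * ((q : ℝ) - x) ≤ ε := by
    rw [lt_div_iff₀ (by positivity)] at k3
    linarith only [k3]
  have h5 : -(|s| * ((q : ℝ) - x)) ≤ s * ((q : ℝ) - x) := by
    have := neg_abs_le s
    nlinarith only [hq1, this]
  rw [abs_le] at h2
  linarith only [h2, h3, h4, h5, h2.1, h2.2]

/-- **(FMS)** for `v ≤ ρ`, and without a subevent. -/
theorem fms_le {S : PCl 3} {a R h₁ : ℝ} {i₀ : Fin 3} {c s₂ : ℝ} {r : ℝ → ℝ} {D : Set ℝ}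
    {σ : ℝ → Row} (hC : Cs S a R h₁ i₀ c s₂ r D σ) {act : ℚ → ℝ} {K : Set ℝ} {W : ℝ → ℝ}
    {v₁ t : ℚ} {e₁ Q₀ P g v₀ v ρ a₀ α : ℝ}
    (hL : Loc S i₀ c s₂ r D σ act K W v₁ t e₁ Q₀ P g v₀ v ρ a₀ α) (hvρ : v ≤ ρ) {CZ C₂ : ℝ}
    (hCZ : 0 < CZ) (hC₂ : 0 < C₂) : ∃ ε₀ l₀ : ℝ, 0 < ε₀ ∧ 0 < l₀ ∧
    ∀ ε l : ℝ, 0 < ε → ε ≤ ε₀ → 0 < l → l ≤ l₀ → ∀ (N : ℕ) (u : ℕ → ℚ),
    Zsc σ N u (W g) v₀ v g ρ ε l CZ → Clp S (fun J F A => ∃ (τ : Fin 3 → Fin 3) (y : F.Ω → Pln)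
      (z : ℕ → F.Ω → Pln) (al nu k b : F.Ω → ℝ), Fms F A i₀ N (wl u J)
        (vl u (W g) v₀ v (ε * l) J) (rl u (W g) g ρ (ε * l) J)
        ⌊(P - g + v₀ + C₂ * l) * J⌋₊ ⌊(P - W g + C₂ * l) * J⌋₊ τ y z al nu k b) := by
  obtain ⟨w₁, b1, b2, b3, b4⟩ := hL.beta
  have hR1 := hC.row 1 one_pos le_rfl hC.D1
  have hadm := hL.adm
  have hv1 : (v₁ : ℝ) < 1 := by exact_mod_cast hadm.v1
  have hWg : W g < v₁ := hadm.ab g hL.thk
  have hWP : W P < v₁ := hadm.ab P hL.row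
  have hWQ : W Q₀ < v₁ := hadm.ab Q₀ hL.top
  have hgP : W g ≤ W P := (hL.mono g hL.thk P hL.row hL.gP.le).1
  have hgw1 : W g < w₁ := by linarith only [b1, hgP]
  have hw11 : w₁ ≤ 1 := by
    have : (w₁ : ℝ) ≤ 1 := by linarith only [b2, hv1, hWQ]
    exact_mod_cast this
  have hw0 := hL.w0
  have hv0 : v₀ ≤ (σ 1).rot w₁ := slp_le hL.rot hgw1 hw0 fun q h0 h1 =>
    rw_thm S a R h₁ i₀ c s₂ r D σ hC 1 one_pos le_rfl hC.D1 q w₁ h0 h1 hw11
  have hpi : P - g + v₀ < (σ 1).pi := by linarith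
  have hsN := hL.gam
  have he1 := hadm.e0
  have he8 := hadm.e8
  have hsm := hL.small
  have hρ0 := hL.ρ0
  -- the scales
  obtain ⟨l₀, hl₀⟩ : ∃ l₀, l₀ = min (min (((v₁ : ℝ) - W g) / CZ) (((σ 1).pi - (P - g + v₀)) / (2 * C₂)))
      (min (((σ 1).sN v₁ t - (P - W g)) / (2 * C₂)) (e₁ / (C₂ + ρ * CZ + 2))) := ⟨_, rfl⟩
  refine ⟨1, l₀, one_pos, ?_, ?_⟩
  · rw [hl₀]
    refine lt_min (lt_min (div_pos (by linarith only [b1, b2, hWQ, hgP]) hCZ) (div_pos (by linarith only [b4, hv0]) (by linarith only [hC₂])))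
      (lt_min (div_pos (by linarith only [hsN]) (by linarith only [hC₂])) (div_pos he1 (by positivity)))
  intro ε l hε hε1 hl hll N u hz
  have l1 : CZ * l ≤ v₁ - W g := by
    have h : l ≤ ((v₁ : ℝ) - W g) / CZ :=
      hll.trans (by rw [hl₀]; exact (min_le_left _ _).trans (min_le_left _ _))
    rwa [le_div_iff₀ hCZ, mul_comm] at h
  have l2 : C₂ * l < (σ 1).pi - (P - g + v₀) := by
    have h : l ≤ ((σ 1).pi - (P - g + v₀)) / (2 * C₂) :=
      hll.trans (by rw [hl₀]; exact (min_le_left _ _).trans (min_le_right _ _))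
    rw [le_div_iff₀ (by linarith only [hC₂])] at h
    have h' := mul_pos hC₂ hl
    linarith only [h, h']
  have l3 : C₂ * l < (σ 1).sN v₁ t - (P - W g) := by
    have h : l ≤ ((σ 1).sN v₁ t - (P - W g)) / (2 * C₂) :=
      hll.trans (by rw [hl₀]; exact (min_le_right _ _).trans (min_le_left _ _))
    rw [le_div_iff₀ (by linarith only [hC₂])] at h
    have h' := mul_pos hC₂ hl
    linarith only [h, h']
  have l4 : (C₂ + ρ * CZ + 2) * l ≤ e₁ := by
    have h : l ≤ e₁ / (C₂ + ρ * CZ + 2) :=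
      hll.trans (by rw [hl₀]; exact (min_le_right _ _).trans (min_le_right _ _))
    rwa [le_div_iff₀ (by positivity), mul_comm] at h
  obtain ⟨e', he'⟩ : ∃ e', e' = ε * l := ⟨_, rfl⟩
  have he0 : 0 < e' := by rw [he']; positivity
  have hel : e' ≤ l := by
    rw [he']
    nlinarith only [hε1, hl]
  have Z := hz.zon
  rw [← he'] at Z ⊢
  have anti := Z.antiF
  have antir : ∀ j ≤ N, ∀ i ≤ j, (u j : ℝ) ≤ u i := fun j hj i hi => by
    exact_mod_cast anti j hj i hi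
  have upos : ∀ j ≤ N, 0 < u j := fun j hj => Z.pos.trans_le (anti N le_rfl j hj)
  have uposr : ∀ j ≤ N, (0 : ℝ) < u j := fun j hj => by exact_mod_cast upos j hj
  have htop := abs_le.1 hz.top
  have hbot := abs_le.1 hz.bot
  have uv1 : ∀ j ≤ N, u j ≤ v₁ := fun j hj => by
    have h1 := antir j hj 0 (Nat.zero_le _)
    have : (u j : ℝ) ≤ v₁ := by linarith only [l1, htop, h1, htop.2]
    exact_mod_cast this
  have u1 : ∀ j ≤ N, u j ≤ 1 := fun j hj => (uv1 j hj).trans hadm.v1.le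
  have aff : ∀ j ≤ N, |(σ 1).rot (u j) - v₀ - v * (u j - W g)| ≤ e' ∧
      |(σ 1).th (u j) - g - (1 + ρ) * (u j - W g)| ≤ e' ∧
      v₀ + v * (u j - W g) + 40 * e' < g - W g + ρ * (u j - W g) ∧ 0 ≤ (σ 1).rot (u j) := by
    intro j hj
    obtain ⟨h1, h2, -, -, h5⟩ := Z.aff (u j) (anti N le_rfl j hj) (anti j hj 0 (Nat.zero_le _))
    exact ⟨h1, h2, h5, num_nonneg hC.ne (hR1.rot (u j) (upos j hj).le (u1 j hj))⟩
  have stp : ∀ j < N, ρ * ((u j : ℝ) - u (j + 1)) ≤ e' ∧ v * ((u j : ℝ) - u (j + 1)) ≤ e' := by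
    intro j hj
    have h1 := Z.stp j hj
    have h2 : (0 : ℝ) ≤ u j - u (j + 1) := by
      have := antir (j + 1) hj j (by omega)
      linarith only [this]
    have h3 := Z.v0
    have h4 := mul_nonneg h3 h2
    have h5 := mul_nonneg hρ0 h2
    constructor <;> nlinarith
  -- the numbers of the labels
  obtain ⟨Vl, hVl⟩ : ∃ Vl : ℕ → ℝ, Vl = fun j => v₀ + v * (u j - W g) - 2 * e' := ⟨_, rfl⟩
  obtain ⟨Tl, hTl⟩ : ∃ Tl : ℕ → ℝ, Tl = fun j => g + (1 + ρ) * (u j - W g) - 2 * e' := ⟨_, rfl⟩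
  obtain ⟨Hl, hHl⟩ : ∃ Hl : ℕ → ℝ,
    Hl = fun j => g - W g - v₀ + (ρ - v) * (u j - W g) - 5 * e' := ⟨_, rfl⟩
  obtain ⟨Gl, hGl⟩ : ∃ Gl : ℕ → ℝ, Gl = fun _ => P - W g + C₂ * l := ⟨_, rfl⟩
  have eV : ∀ j, Vl j = v₀ + v * (u j - W g) - 2 * e' := fun j => by rw [hVl]
  have eT : ∀ j, Tl j = g + (1 + ρ) * (u j - W g) - 2 * e' := fun j => by rw [hTl]
  have eH : ∀ j, Hl j = g - W g - v₀ + (ρ - v) * (u j - W g) - 5 * e' := fun j => by rw [hHl]
  have eG : ∀ j, Gl j = P - W g + C₂ * l := fun j => by rw [hGl]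
  have q1 : ∀ j ≤ N, Vl j < (σ 1).rot (u j) := fun j hj => by
    have h := (abs_le.1 (aff j hj).1).1
    rw [eV]
    linarith only [he0, h]
  have q2 : ∀ j ≤ N, Tl j < (σ 1).th (u j) := fun j hj => by
    have h := (abs_le.1 (aff j hj).2.1).1
    rw [eT]
    linarith only [he0, h]
  have q3 : ∀ j ≤ N, u j + Vl j ≤ Tl j := fun j hj => by
    have h := (aff j hj).2.2.1
    rw [eV, eT]
    linarith only [he0, h]
  have q4 : ∀ j ≤ N, (u j : ℝ) < Tl j := fun j hj => by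
    have h := (aff j hj).2.2
    have h' := (abs_le.1 (aff j hj).1).2
    rw [eT]
    linarith only [he0, h, h', h.1, h.2]
  have q5 : ∀ j < N, (σ 1).rot (u j) < Tl j - u j ∧ (σ 1).rot (u j) < Tl (j + 1) - u (j + 1) :=
    fun j hj => by
    have h := (aff j hj.le).2.2.1
    have h' := (abs_le.1 (aff j hj.le).1).2
    have h2 := (stp j hj).1
    rw [eT, eT]
    constructor <;> linarith
  have q6 : ∀ j < N, Hl j < Tl j - u j - (σ 1).rot (u j) ∧
      Hl j < Tl (j + 1) - u (j + 1) - (σ 1).rot (u j) := fun j hj => by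
    have h' := (abs_le.1 (aff j hj.le).1).2
    have h2 := (stp j hj).1
    rw [eT, eT, eH]
    constructor <;> linarith
  have q7 : ∀ j ≤ N, 0 ≤ Gl j ∧ Gl j < (σ 1).sN v₁ t ∧ Gl j < Tl j - u j + 7 * e₁ :=
    fun j hj => by
    have h0 : 0 ≤ P - W g := by linarith only [hgP, hL, hL.wP]
    have hCl : 0 ≤ C₂ * l := by positivity
    have h1 : -(CZ * l) ≤ u j - W g := by
      have := antir N le_rfl j hj
      linarith only [hbot, this, hbot.1]
    have h2 : -(ρ * (CZ * l)) ≤ ρ * (u j - W g) := by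
      have := mul_le_mul_of_nonneg_left h1 hρ0
      linarith only [this]
    rw [eG, eT]
    refine ⟨by linarith only [h0, hCl], by linarith only [l3], ?_⟩
    nlinarith only [he1, hsm, l4, hel, h2]
  have key := nl_adm hC hadm N u Vl Tl Hl Gl (g := P - g + v₀ + C₂ * l)
    (fun j hj => anti (j + 1) hj j (by omega)) (fun j hj => (upos j hj).le) uv1 (by linarith only [l2]) q1 q2
    q3 q4 (fun j hj => by
      have h := Z.aff (u j) (anti N le_rfl j hj.le) (anti j hj.le 0 (Nat.zero_le _))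
      linarith only [he0, h, h.2.2.1]) q5 q6 (fun j hj => (q7 j hj).1) (fun j hj => (q7 j hj).2.1)
    (fun j hj => (q7 j hj).2.2)
  obtain ⟨J₁, hJ₁⟩ := exists_nat_gt ((N + 2) / e')
  refine Clp.mono (J₂ := J₁) key ?_
  rintro J hJ F A ⟨iu, iN, e, n, z, hNL, hSN'⟩
  have hSN := hSN' 0 (Nat.zero_le _)
  beta_reduce at hSN
  have hJr : ((N : ℝ) + 2) / e' < J := hJ₁.trans_le (by exact_mod_cast hJ)
  have hJe : (N : ℝ) + 2 < e' * J := by
    rwa [div_lt_iff₀ he0, mul_comm] at hJr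
  have hJ0 : (0 : ℝ) ≤ J := Nat.cast_nonneg J
  rw [eG] at hSN
  suffices hs : ∃ (τ : Fin 3 → Fin 3) (y : F.Ω → Pln) (al nu k b : F.Ω → ℝ), Fms F A i₀ N
      (wl u J) (vl u (W g) v₀ v e' J) (rl u (W g) g ρ e' J) ⌊(P - g + v₀ + C₂ * l) * J⌋₊
      ⌊(P - W g + C₂ * l) * J⌋₊ τ y z al nu k b by
    obtain ⟨τ, y, al, nu, k, b, hf⟩ := hs
    exact ⟨τ, y, z, al, nu, k, b, hf⟩
  refine fms_nl hNL hSN (m := N) (by exact_mod_cast Nat.lt_two_pow_self.le) ?_ ?_ ?_ ?_ ?_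
  · intro j hj
    refine Nat.floor_le_floor (mul_le_mul_of_nonneg_right ?_ hJ0)
    rw [eV]
    linarith only [he0]
  · intro j hj
    refine Nat.floor_le_floor (mul_le_mul_of_nonneg_right ?_ hJ0)
    have := mul_le_mul_of_nonneg_left (antir j hj 0 (Nat.zero_le _)) Z.v0
    linarith only [this]
  · intro j hj
    refine Nat.floor_le_floor (mul_le_mul_of_nonneg_right ?_ hJ0)
    have := mul_le_mul_of_nonneg_left (antir j hj 0 (Nat.zero_le _)) hρ0
    linarith only [this]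
  · intro j hj
    have a1 : (0 : ℝ) ≤ g - W g + ρ * (u j - W g) - 20 * e' := by
      have h := (aff j hj).2.2
      have h' := (abs_le.1 (aff j hj).1).2
      linarith only [he0, h, h', h.1, h.2]
    have a2 : ((⌊(u j : ℝ) * J⌋₊ : ℕ) : ℝ) ≤ u j * J :=
      Nat.floor_le (mul_nonneg (uposr j hj).le hJ0)
    have a3 : (rl u (W g) g ρ e' J j : ℝ) ≤ (g - W g + ρ * (u j - W g) - 20 * e') * J :=
      Nat.floor_le (mul_nonneg a1 hJ0)
    refine Nat.le_floor ?_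
    rw [eT]
    push_cast
    have := mul_nonneg he0.le hJ0
    nlinarith only [b1, b2, hv1, hWQ, hgP, hw0, hJe, a2, a3]
  · intro j hj i hi
    have hA := (aff j hj).2.2
    have hA' := (abs_le.1 (aff j hj).1).2
    have a1 : (0 : ℝ) ≤ g - W g + ρ * (u j - W g) - 20 * e' := by linarith only [he0, hA, hA', hA.1, hA.2]
    have a3 : (rl u (W g) g ρ e' J j : ℝ) ≤ (g - W g + ρ * (u j - W g) - 20 * e') * J :=
      Nat.floor_le (mul_nonneg a1 hJ0)
    have a4 : (v₀ + v * (u j - W g) - 10 * e') * J < vl u (W g) v₀ v e' J j + 1 :=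
      Nat.lt_floor_add_one _
    have a5 : (ρ - v) * (u j - W g) ≤ (ρ - v) * (u i - W g) := by
      have := antir j hj i hi.le
      exact mul_le_mul_of_nonneg_left (by linarith only [this]) (by linarith only [hvρ])
    have a6 := mul_le_mul_of_nonneg_right a5 hJ0
    have a7 : 0 ≤ (g - W g + ρ * (u j - W g) - (v₀ + v * (u j - W g)) - 40 * e') * J :=
      mul_nonneg (by linarith only [hA, hA.1]) hJ0
    have a8 := mul_nonneg he0.le hJ0
    refine Nat.le_floor ?_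
    rw [eH]
    rcases Nat.lt_or_ge (rl u (W g) g ρ e' J j) (vl u (W g) v₀ v e' J j) with h | h
    · rw [Nat.sub_eq_zero_of_le h.le]
      push_cast
      linarith only [b1, b2, hv1, hWQ, hgP, hw0, hJe, a6, a7]
    · push_cast [Nat.cast_sub h]
      linarith only [b1, b2, hv1, hWQ, hgP, hw0, hJe, a3, a4, a6]

/-- **(FMS)** -/
theorem fms_thm : FMSStmt := by
  intro S a R h₁ i₀ c s₂ r D σ hC act K W v₁ t e₁ Q₀ P g v₀ v ρ a₀ α hL hvρ CZ C₂ hCZ hC₂
  obtain ⟨ε₀, l₀, h1, h2, h3⟩ := fms_le hC hL hvρ.le hCZ hC₂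
  refine ⟨ε₀, l₀, h1, h2, fun ε l e0 e1 l0 l1 N u hz => ?_⟩
  refine Clp.mono (J₂ := 0) (h3 ε l e0 e1 l0 l1 N u hz) fun J _ F A h => ?_
  refine ⟨A, fun _ h => h, ?_, h⟩
  have := Pe_nonneg F.isLaw A
  linarith only [this]

end Pool.S6N
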