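import Pool.Agent.H97.S6.H4R

/-!
# The tile of a finer tube

The tube of the row `q + r` determines the tube of the row `q` which is finer by `r` digits in the
tangential directions.
-/

set_option autoImplicit false

namespace Pool.S6N

open Finset Real
open Pool.Agent.H49.Ent Pool.Agent.H32.Dense Pool.STK Pool.KA Pool.KSAT Pool.K2S

variable {J : ℕ}

/-- The tubes of the row `q + r` with `Λ` digits less of the normal direction are finer than the
tubes of the row `q`, finer by `r` digits in the tangential directions. -/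
theorem ctx_ctl {F : Fam 3 J} {σ : Fin 3 → Fin 3} {w q V H r Λ : ℕ} {a s t : F.Ω → ℝ}
    (hΛ : Λ ≤ r) (hH : Λ ≤ H) {ω ω' : F.Ω}
    (h : ctx F σ w (q + r) V (H - Λ) a s t ω = ctx F σ w (q + r) V (H - Λ) a s t ω') :
    ctl F σ w q V H r a s t ω = ctl F σ w q V H r a s t ω' := by
  have le : ∀ i, cl q V H r i ≤ cv (q + r) V (H - Λ) i := by
    intro i
    fin_cases i
    · show q + r ≤ q + r
      exact le_rfl
    · show q + r + V ≤ q + r + V
      exact le_rfl
    · show q + (V + H) ≤ q + r + (V + (H - Λ))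
      omega
  exact mlb_coarse F (fun i => Nat.add_le_add_right (le i) w) le h

theorem h3_conv {F : Fam 3 J} {A : F.Ω → Prop} {σ : Fin 3 → Fin 3} {w q V H r n Λ : ℕ}
    {a s t a' s' t' : F.Ω → ℝ} (hQ : IsLaw (Pool.Agent.H49.Ent.cond F.p A True)) (hΛ : Λ ≤ r)
    (hH : Λ ≤ H) :
    CH (Pool.Agent.H49.Ent.cond F.p A True) (pd2 F σ w (q + r) V n a s t)
        (fun ω => (ctx F σ w (q + r) V (H - Λ) a s t ω, gt F a' s' t' ω)) ≤
      CH (Pool.Agent.H49.Ent.cond F.p A True) (pd2 F σ w q V (r + n) a s t)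
        (fun ω => (ctl F σ w q V H r a s t ω, gt F a' s' t' ω)) := by
  have e : pd2 F σ w (q + r) V n a s t = pd2 F σ w q V (r + n) a s t := by
    funext ω
    unfold pd2
    have e1 : q + r + w + n = q + w + (r + n) := by omega
    have e2 : q + r + V + w + n = q + V + w + (r + n) := by omega
    rw [e1, e2]
  rw [e]
  refine CH_mono_cond hQ.nonneg ?_
  intro ω ω' _ _ h
  exact Prod.ext (ctx_ctl hΛ hH (Prod.ext_iff.1 h).1) (Prod.ext_iff.1 h).2

end Pool.S6N
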